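import Pool.Agent.STB.Defs

/-!
# CHART: a generic point of the product in a chart
-/

set_option autoImplicit false

noncomputable section

namespace Pool.Agent.STB

open MvPolynomial Pool.Agent.LibDb3ab1

universe u

namespace Chart

theorem van_smul {k L : Type u} [Field k] [Field L] {n : ℕ} (P : Ideal (MvPolynomial (Fin n) k))
    (hP : ∀ F ∈ P, ∀ j, homogeneousComponent j F ∈ P) (φ : k →+* L) (z : Fin n → L)
    (hz : ∀ f ∈ P, eval₂ φ z f = 0) (c : L) :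
    ∀ f ∈ P, eval₂ φ (fun l => c * z l) f = 0 := by
  intro f hf
  rw [← sum_homogeneousComponent f, eval₂_sum]
  refine Finset.sum_eq_zero fun j _ => ?_
  have h1 := homogeneousComponent_isHomogeneous j f
  have h2 := eval₂_weighted (w := 1) h1 φ z c
  simp only [Pi.one_apply, pow_one] at h2
  rw [h2, hz _ (hP f hf j), mul_zero]

end Chart

open Chart in
theorem chart_proof (hGp : Stmt_Gp.{u}) (hInd : Stmt_Ind.{u}) (hVali : Stmt_Vali.{u}) :
    Stmt_Chart.{u} := by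
  intro k E _ _ _ s m r 𝔓 hG t ht
  classical
  obtain ⟨Ω, _, _, _, θ₀, hθ₀⟩ := exists_transcendence (Fintype.card (Σ i : Fin s, Fin (r i + 1))) E
  let θ : (Σ i : Fin s, Fin (r i + 1)) → Ω := fun v => θ₀ (Fintype.equivFin _ v)
  have hθ : AlgebraicIndependent E θ :=
    hθ₀.1.comp _ (Fintype.equivFin (Σ i : Fin s, Fin (r i + 1))).injective
  let _ : Algebra k Ω := ((algebraMap E Ω).comp (algebraMap k E)).toAlgebra
  have : IsScalarTower k E Ω := IsScalarTower.of_algebraMap_eq fun _ => rfl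
  have hθk : AlgebraicIndependent k θ := hθ.restrictScalars (algebraMap k E).injective
  have hfib : ∀ i : Fin s, Function.Injective
      (fun a : Fin (r i + 1) => (⟨i, a⟩ : Σ i : Fin s, Fin (r i + 1))) := fun i a b hab => by
    simpa using hab
  -- generic points of the cones
  have h1 : ∀ i : Fin s, ∃ ζ : Fin (m i + 1) → Ω, (∀ f ∈ 𝔓 i, aeval ζ f = 0) ∧
      ∀ a : Fin (r i + 1), θ ⟨i, a⟩ ∈ Algebra.adjoin k (Set.range ζ) := by
    intro i
    have := hG.prime i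
    exact hGp (𝔓 i) (hG.dim i) (θ := fun a => θ ⟨i, a⟩) (hθk.comp _ (hfib i))
  choose ζ hζ hθζ using h1
  have hζ' : ∀ i, ∀ f ∈ 𝔓 i, eval₂ ((algebraMap E Ω).comp (algebraMap k E)) (ζ i) f = 0 := by
    intro i f hf
    exact hζ i f hf
  set t' : (Σ i : Fin s, Fin (r i + 1)) → Ω := fun v => algebraMap E Ω (t v) with ht'
  let U : (Σ i : Fin s, Fin (r i + 1)) → Ω := uu t' (fun v : PV m => ζ v.1 v.2)
  have hUdef : ∀ i (a : Fin (r i + 1)),
      ∑ l : Fin (m i + 1), algebraMap E Ω (t ⟨i, a⟩) ^ (l : ℕ) * ζ i l = U ⟨i, a⟩ := fun i a => rfl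
  have hint : ∀ i l, IsIntegral (Algebra.adjoin E (Set.range U)) (ζ i l) := by
    intro i l
    refine hVali (𝔓 i) (hG.homog i) (hG.dim i) (t := fun a => t ⟨i, a⟩) (ht.comp _ (hfib i))
      (Algebra.adjoin E (Set.range U)) (z := ζ i) (hζ' i) (fun a => ?_) l
    rw [hUdef]
    exact Algebra.subset_adjoin ⟨_, rfl⟩
  have hθint : ∀ v, IsIntegral (Algebra.adjoin E (Set.range U)) (θ v) := by
    rintro ⟨i, a⟩
    refine Algebra.adjoin_induction (p := fun x _ =>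
      IsIntegral (Algebra.adjoin E (Set.range U)) x) ?_ ?_ ?_ ?_ (hθζ i a)
    · rintro _ ⟨l, rfl⟩
      exact hint i l
    · intro c
      have : algebraMap k Ω c = algebraMap (Algebra.adjoin E (Set.range U)) Ω
          (algebraMap E (Algebra.adjoin E (Set.range U)) (algebraMap k E c)) := rfl
      rw [this]
      exact isIntegral_algebraMap
    · intro x y _ _ hx hy
      exact hx.add hy
    · intro x y _ _ hx hy
      exact hx.mul hy
  have hUind : AlgebraicIndependent E U := hInd hθ fun j => (hθint j).isAlgebraic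
  have hU0 : ∀ i, U ⟨i, 0⟩ ≠ 0 := fun i => hUind.ne_zero ⟨i, 0⟩
  -- the point in the chart
  let z : PV m → Ω := fun v => (U ⟨v.1, 0⟩)⁻¹ * ζ v.1 v.2
  have huz : ∀ i (a : Fin (r i + 1)), uu t' z ⟨i, a⟩ = (U ⟨i, 0⟩)⁻¹ * U ⟨i, a⟩ := by
    intro i a
    rw [← hUdef i a, Finset.mul_sum]
    refine Finset.sum_congr rfl fun l _ => ?_
    simp only [z, ht']
    ring
  have huz0 : ∀ i, uu t' z ⟨i, 0⟩ = 1 := fun i => by rw [huz, inv_mul_cancel₀ (hU0 i)]
  have hvan : Van 𝔓 ((algebraMap E Ω).comp (algebraMap k E)) z := fun i =>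
    van_smul (𝔓 i) (hG.homog i) _ (ζ i) (hζ' i) (U ⟨i, 0⟩)⁻¹
  -- independence
  let Ub : (Σ i : Fin s, Fin (r i + 1)) → Ω := fun v =>
    if v.2 = 0 then U ⟨v.1, 0⟩ else uu t' z v
  have hUb0 : ∀ i, Ub ⟨i, 0⟩ = U ⟨i, 0⟩ := fun i => if_pos rfl
  have hUbind : AlgebraicIndependent E Ub := by
    refine hInd hUind ?_
    rintro ⟨i, a⟩
    have h2 : U ⟨i, 0⟩ ∈ Algebra.adjoin E (Set.range Ub) :=
      Algebra.subset_adjoin ⟨⟨i, 0⟩, hUb0 i⟩
    have h3 : U ⟨i, a⟩ ∈ Algebra.adjoin E (Set.range Ub) := by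
      by_cases ha : a = 0
      · subst ha
        exact h2
      · have h4 : uu t' z ⟨i, a⟩ ∈ Algebra.adjoin E (Set.range Ub) :=
          Algebra.subset_adjoin ⟨⟨i, a⟩, if_neg ha⟩
        have h5 : U ⟨i, a⟩ = U ⟨i, 0⟩ * uu t' z ⟨i, a⟩ := by
          rw [huz, ← mul_assoc, mul_inv_cancel₀ (hU0 i), one_mul]
        rw [h5]
        exact mul_mem h2 h4
    exact isAlgebraic_algebraMap (⟨U ⟨i, a⟩, h3⟩ : Algebra.adjoin E (Set.range Ub))
  have hind : AlgebraicIndependent E (fun v : Σ i : Fin s, Fin (r i) =>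
      uu t' z ⟨v.1, v.2.succ⟩) := by
    have hinj : Function.Injective (fun v : Σ i : Fin s, Fin (r i) =>
        (⟨v.1, v.2.succ⟩ : Σ i : Fin s, Fin (r i + 1))) := by
      rintro ⟨i, a⟩ ⟨j, b⟩ hab
      simp only [Sigma.mk.injEq] at hab
      obtain ⟨rfl, hab⟩ := hab
      rw [heq_eq_eq, Fin.succ_inj] at hab
      rw [hab]
    have h2 := hUbind.comp _ hinj
    have h3 : (Ub ∘ fun v : Σ i : Fin s, Fin (r i) =>
        (⟨v.1, v.2.succ⟩ : Σ i : Fin s, Fin (r i + 1))) = fun v : Σ i : Fin s, Fin (r i) =>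
        uu t' z ⟨v.1, v.2.succ⟩ := by
      funext v
      change (if v.2.succ = 0 then U ⟨v.1, 0⟩ else uu t' z ⟨v.1, v.2.succ⟩) = _
      rw [if_neg (Fin.succ_ne_zero v.2)]
    rwa [h3] at h2
  refine ⟨Ω, inferInstance, inferInstance, z, hvan, huz0, hind, ?_⟩
  rintro ⟨i, l⟩
  refine hVali (𝔓 i) (hG.homog i) (hG.dim i) (t := fun a => t ⟨i, a⟩) (ht.comp _ (hfib i)) _
    (z := fun l => z ⟨i, l⟩) (hvan i) (fun a => ?_) l
  have h2 : ∑ l : Fin (m i + 1), algebraMap E Ω (t ⟨i, a⟩) ^ (l : ℕ) * z ⟨i, l⟩ =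
      uu t' z ⟨i, a⟩ := rfl
  rw [h2]
  refine Fin.cases ?_ (fun a' => ?_) a
  · rw [huz0]
    exact one_mem _
  · exact Algebra.subset_adjoin ⟨⟨i, a'⟩, rfl⟩

end Pool.Agent.STB
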