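import Pool.Agent.STB.Defs

/-!
# Lower bound for the dimension of the closure of a point on generic hyperplanes
-/

set_option autoImplicit false
set_option linter.style.haveILetI false

noncomputable section

namespace Pool.Agent.STB

open MvPolynomial Pool.Agent.LibDb3ab1

universe u

theorem dimge_proof : Stmt_Dimge.{u} := by
  intro k κ _ _ _ n d t ht x hx hrel
  classical
  set ψ : MvPolynomial (Fin (n + 1)) k →ₐ[k] Polynomial κ :=
    MvPolynomial.aeval (fun l => Polynomial.C (x l) * Polynomial.X) with hψ
  have hψ' : (psi (algebraMap k κ) x) = ψ.toRingHom := by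
    apply MvPolynomial.ringHom_ext
    · intro r
      simp only [psi, coe_eval₂Hom, eval₂_C, AlgHom.toRingHom_eq_coe, RingHom.coe_coe, hψ,
        algHom_C]
      rfl
    · intro i; simp [psi, hψ]
  set A : Subalgebra k (Polynomial κ) := ψ.range with hA
  have h1 : ringKrullDim (MvPolynomial (Fin (n + 1)) k ⧸ ptIdeal (algebraMap k κ) x) =
      ringKrullDim A := by
    have e1 : ptIdeal (algebraMap k κ) x = RingHom.ker ψ := by
      rw [ptIdeal, hψ']; rfl
    rw [e1]
    exact ringKrullDim_eq_of_ringEquiv (Ideal.quotientKerEquivRange ψ).toRingEquiv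
  rw [h1]
  haveI : Algebra.FiniteType k A := Algebra.FiniteType.of_surjective ψ.rangeRestrict
    ψ.rangeRestrict_surjective
  obtain ⟨s, hs⟩ : ∃ s : ℕ, Algebra.trdeg k A = s :=
    Cardinal.lt_aleph0.mp (trdeg_lt_aleph0_of_finiteType)
  rw [ringKrullDim_eq_trdeg k A hs]
  have hxA : ∀ l, Polynomial.C (x l) * Polynomial.X ∈ A := fun l => ⟨X l, by simp [hψ]⟩
  set S := Subalgebra.algebraicClosure A (Polynomial κ) with hS
  have hmemA : ∀ a, a ∈ A → a ∈ S := by
    intro a ha
    rw [hS, Subalgebra.mem_algebraicClosure]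
    exact isAlgebraic_algebraMap (⟨a, ha⟩ : A)
  obtain ⟨l0, hl0⟩ : ∃ l, x l ≠ 0 := by
    by_contra h
    apply hx
    funext l
    by_contra h2
    exact h ⟨l, h2⟩
  have ht' : ∀ i, Polynomial.C (t i) ∈ S := by
    intro i
    rw [hS, Subalgebra.mem_algebraicClosure]
    refine ⟨∑ l : Fin (n + 1), Polynomial.C (⟨_, hxA l⟩ : A) * Polynomial.X ^ (l : ℕ), ?_, ?_⟩
    · intro h0
      have h2 := congrArg (fun P => Polynomial.coeff P (l0 : ℕ)) h0
      simp only [Polynomial.finsetSum_coeff, Polynomial.coeff_C_mul_X_pow,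
        Polynomial.coeff_zero] at h2
      rw [Finset.sum_eq_single l0] at h2
      · rw [if_pos rfl] at h2
        have h3 := congrArg Subtype.val h2
        have h4 := congrArg (fun P => Polynomial.coeff P 1) h3
        simp at h4
        exact hl0 h4
      · intro b _ hb
        rw [if_neg]
        intro h3
        exact hb (Fin.ext h3.symm)
      · simp
    · rw [map_sum]
      have h2 : ∀ l : Fin (n + 1), Polynomial.aeval (Polynomial.C (t i))
          (Polynomial.C (⟨_, hxA l⟩ : A) * Polynomial.X ^ (l : ℕ)) =
          Polynomial.C (t i ^ (l : ℕ) * x l) * (Polynomial.X : Polynomial κ) := by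
        intro l
        rw [map_mul, map_pow, Polynomial.aeval_X, Polynomial.aeval_C]
        change (Polynomial.C (x l) * Polynomial.X) * _ = _
        rw [map_mul, map_pow]; ring
      rw [Finset.sum_congr rfl (fun l _ => h2 l), ← Finset.sum_mul, ← map_sum, hrel i]
      simp
  -- `d + 1` algebraically independent elements of `κ[X]`
  have hy : AlgebraicIndependent κ
      (fun _ : Unit => (Polynomial.C (x l0) * Polynomial.X : Polynomial κ)) := by
    rw [algebraicIndependent_unique_type_iff]
    apply Polynomial.transcendental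
    · rw [Polynomial.natDegree_C_mul_X _ hl0]; exact one_ne_zero
    · rw [mem_nonZeroDivisors_iff_ne_zero, Polynomial.leadingCoeff_C_mul_X]
      exact hl0
  have hsum := ht.sumElim_comp hy
  let z : Unit ⊕ Fin d → S := Sum.elim (fun _ => ⟨_, hmemA _ (hxA l0)⟩) (fun i => ⟨_, ht' i⟩)
  have hz : AlgebraicIndependent k z := by
    apply AlgebraicIndependent.of_comp (S.val.restrictScalars k)
    have : (S.val.restrictScalars k) ∘ z = Sum.elim
        (fun _ : Unit => (Polynomial.C (x l0) * Polynomial.X : Polynomial κ))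
        (algebraMap κ (Polynomial κ) ∘ t) := by
      funext i
      rcases i with i | i
      · rfl
      · rfl
    rw [this]
    exact hsum
  have h2 := hz.lift_cardinalMk_le_trdeg
  haveI : FaithfulSMul A S := (faithfulSMul_iff_algebraMap_injective _ _).mpr (by
    intro a b hab
    exact Subtype.ext (congrArg (fun s : S => (s : Polynomial κ)) hab))
  have h3 : Algebra.trdeg k A + Algebra.trdeg A S = Algebra.trdeg k S := trdeg_add_eq k A
  have h4 : Algebra.trdeg A S = 0 := by
    rw [trdeg_eq_zero_iff]
    infer_instance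
  rw [h4, add_zero, hs] at h3
  rw [← h3] at h2
  simp at h2
  have h5 : ((1 + d : ℕ) : Cardinal.{u}) ≤ (s : ℕ) := by push_cast; exact h2
  have h6 : 1 + d ≤ s := by exact_mod_cast h5
  have h7 : d + 1 ≤ s := by omega
  exact_mod_cast h7

end Pool.Agent.STB
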