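import Pool.Agent.LibDb3ab1.Main

/-!
# Stability of tilted approximation: definitions and statements of the modules

Variables: `PV m` are the coordinates of the product of the projective spaces `ℙ^(m i)`, `i < s`;
`W1 m` is the standard multigrading.
-/

set_option autoImplicit false

noncomputable section

namespace Pool.Agent.STB

open MvPolynomial Pool.Agent.LibDb3ab1

universe u

/-- The coordinates of `ℙ^(m 0) × ... × ℙ^(m (s-1))`. -/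
abbrev PV {s : ℕ} (m : Fin s → ℕ) : Type := Σ i : Fin s, Fin (m i + 1)

/-- The standard multigrading. -/
def W1 {s : ℕ} (m : Fin s → ℕ) (i : Fin s) (v : PV m) : ℕ := if v.1 = i then 1 else 0

theorem tri_W1 {s : ℕ} (m : Fin s → ℕ) : Tri (Sigma.fst : PV m → Fin s) (W1 m) where
  pos v := by simp [W1]
  tri v i h := by
    simp only [W1]
    rw [if_neg (ne_of_lt h)]

/-- Linear forms whose coefficients are the powers of `t v`. -/
def uu {L : Type u} [Field L] {s : ℕ} {m r : Fin s → ℕ} (t : (Σ i : Fin s, Fin (r i + 1)) → L)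
    (z : PV m → L) (v : Σ i : Fin s, Fin (r i + 1)) : L :=
  ∑ l : Fin (m v.1 + 1), t v ^ (l : ℕ) * z ⟨v.1, l⟩

/-- The closed subschemes `𝔓 i` of `ℙ^(m i)` are integral of dimension `r i`. -/
structure Good {k : Type u} [Field k] {s : ℕ} {m : Fin s → ℕ}
    (𝔓 : ∀ i : Fin s, Ideal (MvPolynomial (Fin (m i + 1)) k)) (r : Fin s → ℕ) : Prop where
  prime : ∀ i, (𝔓 i).IsPrime
  homog : ∀ i, ∀ F ∈ 𝔓 i, ∀ j, homogeneousComponent j F ∈ 𝔓 i
  dim : ∀ i, ringKrullDim (MvPolynomial (Fin (m i + 1)) k ⧸ 𝔓 i) = (r i + 1 : ℕ)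

/-- Every `𝔓 i` vanishes at `z`. -/
def Van {k L : Type u} [Field k] [Field L] {s : ℕ} {m : Fin s → ℕ}
    (𝔓 : ∀ i : Fin s, Ideal (MvPolynomial (Fin (m i + 1)) k)) (φ : k →+* L) (z : PV m → L) : Prop :=
  ∀ i, ∀ f ∈ 𝔓 i, eval₂ φ (fun l => z ⟨i, l⟩) f = 0

/-- DIMGE: lower bound for the dimension of the closure of a point on generic hyperplanes. -/
def Stmt_Dimge : Prop := ∀ {k κ : Type u} [Field k] [Field κ] [Algebra k κ] {n d : ℕ}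
  {t : Fin d → κ}, AlgebraicIndependent k t → ∀ {x : Fin (n + 1) → κ}, x ≠ 0 →
  (∀ i, ∑ l : Fin (n + 1), t i ^ (l : ℕ) * x l = 0) →
  ((d + 1 : ℕ) : WithBot ℕ∞) ≤
    ringKrullDim (MvPolynomial (Fin (n + 1)) k ⧸ ptIdeal (algebraMap k κ) x)

/-- NN: `r + 1` generic hyperplanes have no common point on a closed subscheme of dimension `r`. -/
def Stmt_Nn : Prop := ∀ {k κ : Type u} [Field k] [Field κ] [Algebra k κ] {m r : ℕ}
  (𝔓 : Ideal (MvPolynomial (Fin (m + 1)) k)), (∀ F ∈ 𝔓, ∀ j, homogeneousComponent j F ∈ 𝔓) →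
  ringKrullDim (MvPolynomial (Fin (m + 1)) k ⧸ 𝔓) = (r + 1 : ℕ) →
  ∀ {t : Fin (r + 1) → κ}, AlgebraicIndependent k t → ∀ {x : Fin (m + 1) → κ},
  (∀ f ∈ 𝔓, eval₂ (algebraMap k κ) x f = 0) →
  (∀ a, ∑ l : Fin (m + 1), t a ^ (l : ℕ) * x l = 0) → x = 0

/-- GP: generic points of affine cones. -/
def Stmt_Gp : Prop := ∀ {k Ω : Type u} [Field k] [Field Ω] [IsAlgClosed Ω] [Algebra k Ω] {m d : ℕ}
  (𝔓 : Ideal (MvPolynomial (Fin m) k)) [𝔓.IsPrime],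
  ringKrullDim (MvPolynomial (Fin m) k ⧸ 𝔓) = (d : ℕ) →
  ∀ {θ : Fin d → Ω}, AlgebraicIndependent k θ →
  ∃ ζ : Fin m → Ω, (∀ f ∈ 𝔓, aeval ζ f = 0) ∧ ∀ j, θ j ∈ Algebra.adjoin k (Set.range ζ)

/-- IND: a family of `n` elements over which `n` algebraically independent elements are algebraic. -/
def Stmt_Ind : Prop := ∀ {E Ω : Type u} [Field E] [Field Ω] [Algebra E Ω] {ι : Type} [Finite ι]
  {θ U : ι → Ω}, AlgebraicIndependent E θ →
  (∀ j, IsAlgebraic (Algebra.adjoin E (Set.range U)) (θ j)) → AlgebraicIndependent E U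

/-- VALI: integrality of the coordinates over any algebra containing `r + 1` generic linear
forms. -/
def Stmt_Vali : Prop := ∀ {k E Ω : Type u} [Field k] [Field E] [Field Ω] [Algebra k E]
  [Algebra E Ω] {m r : ℕ} (𝔓 : Ideal (MvPolynomial (Fin (m + 1)) k)),
  (∀ F ∈ 𝔓, ∀ j, homogeneousComponent j F ∈ 𝔓) →
  ringKrullDim (MvPolynomial (Fin (m + 1)) k ⧸ 𝔓) = (r + 1 : ℕ) →
  ∀ {t : Fin (r + 1) → E}, AlgebraicIndependent k t → ∀ (A : Subalgebra E Ω)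
  {z : Fin (m + 1) → Ω},
  (∀ f ∈ 𝔓, eval₂ ((algebraMap E Ω).comp (algebraMap k E)) z f = 0) →
  (∀ a, ∑ l : Fin (m + 1), algebraMap E Ω (t a) ^ (l : ℕ) * z l ∈ A) → ∀ l, IsIntegral A (z l)

/-- CHART: a generic point of the product, in the chart where the generic linear forms
`u (i, 0)` are `1`: the remaining generic linear forms are algebraically independent, and the
coordinates are integral over them. -/
def Stmt_Chart : Prop := ∀ {k E : Type u} [Field k] [Field E] [Algebra k E] {s : ℕ}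
  {m r : Fin s → ℕ} (𝔓 : ∀ i : Fin s, Ideal (MvPolynomial (Fin (m i + 1)) k)), Good 𝔓 r →
  ∀ {t : (Σ i : Fin s, Fin (r i + 1)) → E}, AlgebraicIndependent k t →
  ∃ (Ω : Type u) (_ : Field Ω) (_ : Algebra E Ω) (z : PV m → Ω),
    Van 𝔓 ((algebraMap E Ω).comp (algebraMap k E)) z ∧
    (∀ i, uu (fun v => algebraMap E Ω (t v)) z ⟨i, 0⟩ = 1) ∧
    AlgebraicIndependent E (fun v : Σ i : Fin s, Fin (r i) =>
      uu (fun v => algebraMap E Ω (t v)) z ⟨v.1, v.2.succ⟩) ∧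
    ∀ w, IsIntegral (Algebra.adjoin E (Set.range (fun v : Σ i : Fin s, Fin (r i) =>
      uu (fun v => algebraMap E Ω (t v)) z ⟨v.1, v.2.succ⟩))) (z w)

/-- HOM1: the homotopy argument over an integral extension of a polynomial ring. -/
def Stmt_Hom1 : Prop := ∀ {E Ω : Type u} [Field E] [Field Ω] [Algebra E Ω] {σ ρ : Type} [Finite σ]
  [Finite ρ] {n : ℕ} {u : σ → Ω}, AlgebraicIndependent E u →
  ∀ {z : ρ → Ω}, (∀ v, IsIntegral (Algebra.adjoin E (Set.range u)) (z v)) →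
  (∀ a, u a ∈ Algebra.adjoin E (Set.range z)) →
  ∀ (S T : σ ⊕ Fin (n + 1) → MvPolynomial (ρ ⊕ Fin (n + 1)) E),
  (∀ a, ∃ m, 0 < m ∧ aeval (Sum.elim (fun v => C (z v)) X :
    ρ ⊕ Fin (n + 1) → MvPolynomial (Fin (n + 1)) Ω) (S (Sum.inl a)) = C (u a) ^ m) →
  (∀ l, ∃ m, 0 < m ∧ aeval (Sum.elim (fun v => C (z v)) X :
    ρ ⊕ Fin (n + 1) → MvPolynomial (Fin (n + 1)) Ω) (S (Sum.inr l)) = X l ^ m) →
  ∃ (L : Type u) (_ : Field L) (φ : E →+* L) (ε : L) (y : ρ ⊕ Fin (n + 1) → L),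
    (∀ P : Polynomial E, P ≠ 0 → Polynomial.eval₂ φ ε P ≠ 0) ∧
    (∀ r, eval₂ φ y (S r) + ε * eval₂ φ y (T r) = 0) ∧
    ∀ f : MvPolynomial ρ E, aeval z f = 0 → eval₂ φ (fun v => y (Sum.inl v)) f = 0

/-- HOM2: the valuation part of the homotopy argument. -/
def Stmt_Hom2 : Prop := ∀ {s n : ℕ} {τ : Type} [Finite τ] {grp : τ → Fin s} {W : Fin s → τ → ℕ}
  {e : Fin s → ℕ}, Tri grp W → 0 < ∑ i, e i →
  ∀ {E L : Type u} [Field E] [Field L] (φ : E →+* L) (ε : L),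
  (∀ P : Polynomial E, P ≠ 0 → Polynomial.eval₂ φ ε P ≠ 0) →
  ∀ (y : τ ⊕ Fin (n + 1) → L), Rel grp (fun v => y (Sum.inl v)) →
  ∀ {R : Type} (S T : R → MvPolynomial (τ ⊕ Fin (n + 1)) E) {D : R → Fin s → ℕ},
  (∀ r, MH (WW W e n) (S r) (D r)) → (∀ r, MH (WW W e n) (T r) (D r)) →
  (∀ r, eval₂ φ y (S r) + ε * eval₂ φ y (T r) = 0) →
  ∀ (ρ : Fin (n + 1) → R),
  (∀ (κ : Type u) [Field κ] (φ : E →+* κ) (x : Fin (n + 1) → κ),
    (∀ l, eval₂ φ (Sum.elim 0 x) (T (ρ l)) = 0) → x = 0) →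
  ∃ (κ : Type u) (_ : Field κ) (φ' : E →+* κ) (z : τ → κ) (x : Fin (n + 1) → κ),
    Rel grp z ∧ (∀ r, eval₂ φ' (Sum.elim z x) (T r) = 0) ∧
    ∀ (f : MvPolynomial τ E) (a : Fin s → ℕ), MH W f a →
      eval₂ φ (fun v => y (Sum.inl v)) f = 0 → eval₂ φ' z f = 0

/-- POINT: existence of a point of the incidence variety with prescribed hyperplanes. -/
def Stmt_Point : Prop := ∀ {k : Type u} [Field k] {s n d : ℕ} {m r : Fin s → ℕ} {e : Fin s → ℕ},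
  0 < ∑ i, e i → ∀ (𝔓 : ∀ i : Fin s, Ideal (MvPolynomial (Fin (m i + 1)) k)), Good 𝔓 r →
  ∀ {J : Type} (F : J → MvPolynomial (PV m) k) {D : J → Fin s → ℕ}, (∀ j, MH (W1 m) (F j) (D j)) →
  ∀ (G : Fin (n + 1) → MvPolynomial (PV m ⊕ Fin (n + 1)) k) {q : Fin (n + 1) → ℕ},
  (∀ l, 0 < q l) → (∀ l, MH (WW (W1 m) e n) (G l) (fun i => e i * q l)) →
  ∀ (β : (Σ i : Fin s, Fin (r i)) ≃ J ⊕ Fin d),
  (∀ v, 0 < (Sum.elim D (fun _ => e) (β v) : Fin s → ℕ) v.1) →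
  (∀ (κ : Type u) [Field κ] (φ : k →+* κ) (x : Fin (n + 1) → κ),
    (∀ l, eval₂ φ (Sum.elim 0 x) (G l) = 0) → x = 0) →
  ∃ (E : Type u) (_ : Field E) (_ : IsAlgClosed E) (_ : Algebra k E) (t : Fin d → E)
    (z : PV m → E) (x : Fin (n + 1) → E), IsTranscendenceBasis k t ∧
    Rel Sigma.fst z ∧ Van 𝔓 (algebraMap k E) z ∧ (∀ j, eval₂ (algebraMap k E) z (F j) = 0) ∧
    (∀ l, eval₂ (algebraMap k E) (Sum.elim z x) (G l) = 0) ∧
    ∀ i, ∑ l : Fin (n + 1), t i ^ (l : ℕ) * x l = 0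

/-- HG: homogeneous ideals have finitely many homogeneous generators. -/
def Stmt_Hg : Prop := ∀ {k : Type u} [Field k] {m : ℕ} (I : Ideal (MvPolynomial (Fin m) k)),
  (∀ F ∈ I, ∀ j, homogeneousComponent j F ∈ I) →
  ∃ (g : ℕ) (f : Fin g → MvPolynomial (Fin m) k) (δ : Fin g → ℕ),
    (∀ b, (f b).IsHomogeneous (δ b)) ∧ Ideal.span (Set.range f) = I

/-- EXY: existence of the approximating variety, algebraic part. -/
def Stmt_ExY : Prop := ∀ {k : Type u} [Field k] {s n d : ℕ} {m r : Fin s → ℕ} {e : Fin s → ℕ},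
  0 < ∑ i, e i → ∀ (𝔓 : ∀ i : Fin s, Ideal (MvPolynomial (Fin (m i + 1)) k)), Good 𝔓 r →
  ∀ {J : Type} (F : J → MvPolynomial (PV m) k) {D : J → Fin s → ℕ}, (∀ j, MH (W1 m) (F j) (D j)) →
  ∀ (G : Fin (n + 1) → MvPolynomial (PV m ⊕ Fin (n + 1)) k) {q : Fin (n + 1) → ℕ},
  (∀ l, 0 < q l) → (∀ l, MH (WW (W1 m) e n) (G l) (fun i => e i * q l)) →
  ∀ (β : (Σ i : Fin s, Fin (r i)) ≃ J ⊕ Fin d),
  (∀ v, 0 < (Sum.elim D (fun _ => e) (β v) : Fin s → ℕ) v.1) →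
  (∀ (κ : Type u) [Field κ] (φ : k →+* κ) (x : Fin (n + 1) → κ),
    (∀ l, eval₂ φ (Sum.elim 0 x) (G l) = 0) → x = 0) →
  (∀ (κ : Type u) [Field κ] (φ : k →+* κ) (z : PV m → κ), Rel Sigma.fst z → Van 𝔓 φ z →
    (∀ j, eval₂ φ z (F j) = 0) → (∀ l, eval₂ φ (Sum.elim z 0) (G l) = 0) → False) →
  ∃ 𝔜 : Ideal (MvPolynomial (Fin (n + 1)) k), 𝔜.IsPrime ∧
    (∀ f ∈ 𝔜, ∀ j, homogeneousComponent j f ∈ 𝔜) ∧
    ringKrullDim (MvPolynomial (Fin (n + 1)) k ⧸ 𝔜) = (d + 1 : ℕ) ∧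
    ∀ (Ω : Type u) [Field Ω] [IsAlgClosed Ω] (ψ : k →+* Ω) (y : Fin (n + 1) → Ω), y ≠ 0 →
      (∀ f ∈ 𝔜, eval₂ ψ y f = 0) →
      ∃ (z : PV m → Ω) (c : Ω), c ≠ 0 ∧ Rel Sigma.fst z ∧ Van 𝔓 ψ z ∧
        (∀ j, eval₂ ψ z (F j) = 0) ∧
        ∀ l, eval₂ ψ (Sum.elim z (fun l => c * y l)) (G l) = 0

/-- The tube of radius `p ^ M` around the closed subscheme defined by the forms `f b`. -/
def tube {K : Type u} [Field K] (O : ValuationSubring K) (p : ℕ) {m g : ℕ}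
    (f : Fin g → MvPolynomial (Fin (m + 1)) O) (δ : Fin g → ℕ) (M : ℕ) : Set (AdicProj O m) :=
  {a | ∃ v : Fin (m + 1), (∀ w, (X w, X v) ∈ a.1) ∧ (X v, 0) ∉ a.1 ∧
    ∀ b, (MvPolynomial.map O.subtype (f b), C ((p : K) ^ M) * X v ^ δ b) ∈ a.1}

/-- TUBE: tubes are open neighbourhoods, and what it means for a normalised point to be inside. -/
def Stmt_Tube : Prop := ∀ {K : Type u} [Field K] (O : ValuationSubring K) {p : ℕ},
  (p : K) ≠ 0 → ∀ {m g : ℕ} (f : Fin g → MvPolynomial (Fin (m + 1)) O) (δ : Fin g → ℕ) (M : ℕ),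
  (∀ b, (f b).IsHomogeneous (δ b)) →
  IsOpen (tube O p f δ M) ∧
  (∀ I : Ideal (MvPolynomial (Fin (m + 1)) K), (∀ b, MvPolynomial.map O.subtype (f b) ∈ I) →
    adicLocus O I ⊆ tube O p f δ M) ∧
  ∀ (L : Type u) [Field L] (ι : K →+* L) (V : ValuationSubring L) (hV : ValuedExt O ι V)
    (z : Fin (m + 1) → V) (v₀ : Fin (m + 1)), z v₀ = 1 →
    ∀ a ∈ tube O p f δ M, a.1 = pointRel ι V (fun l => (z l : L)) →
    ∀ b, (p : V) ^ M ∣ eval₂ hV.incl z (f b)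

end Pool.Agent.STB
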