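import Pool.Agent.STB.Defs

/-!
# EXY: existence of the approximating variety, algebraic part
-/

set_option autoImplicit false

noncomputable section

namespace Pool.Agent.STB

open MvPolynomial Pool.Agent.LibDb3ab1

universe u

namespace EXY

theorem mh_rename {k : Type u} [Field k] {s : ℕ} {m : Fin s → ℕ} (i : Fin s)
    {f : MvPolynomial (Fin (m i + 1)) k} {δ : ℕ} (hf : f.IsHomogeneous δ) :
    MH (W1 m) (rename (fun l => (⟨i, l⟩ : PV m)) f) (Pi.single i δ) := by
  classical
  intro i' w hw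
  obtain ⟨v, hv, hv'⟩ := coeff_rename_ne_zero _ _ _ hw
  have h1 := hf hv'
  rw [← hv, Finsupp.weight_apply, Finsupp.sum_mapDomain_index (by simp)
    (by intros; simp [add_mul])]
  rw [Finsupp.weight_apply] at h1
  by_cases h : i' = i
  · subst h
    rw [Pi.single_eq_same, ← h1]
    apply Finsupp.sum_congr
    intro l _
    simp [W1]
  · rw [Pi.single_eq_of_ne h]
    simp only [W1]
    have h2 : ∀ l : Fin (m i + 1), (if (⟨i, l⟩ : PV m).1 = i' then 1 else 0) = 0 := by
      intro l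
      rw [if_neg (fun h' => h h'.symm)]
    simp only [Finsupp.sum]
    apply Finset.sum_eq_zero
    intro l _
    rw [h2 l]
    simp

/-- Vanishing of an ideal on generators. -/
theorem van_of_span {k L : Type u} [Field k] [Field L] {m g : ℕ} (φ : k →+* L)
    (I : Ideal (MvPolynomial (Fin m) k)) (f : Fin g → MvPolynomial (Fin m) k)
    (hI : Ideal.span (Set.range f) = I) (z : Fin m → L) (h : ∀ b, eval₂ φ z (f b) = 0) :
    ∀ F ∈ I, eval₂ φ z F = 0 := by
  have h1 : I ≤ RingHom.ker (eval₂Hom φ z) := by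
    rw [← hI, Ideal.span_le]
    rintro _ ⟨b, rfl⟩
    exact h b
  intro F hF
  exact h1 hF

end EXY

theorem exy_proof (hPoint : Stmt_Point.{u}) (hHg : Stmt_Hg.{u}) : Stmt_ExY.{u} := by
  classical
  intro k _ s n d m r e he 𝔓 h𝔓 J F D hF G q hq hG β hβ hP2 hP3
  obtain ⟨E, _, _, _, t, z, x, ht, hz, hVan, hFz, hGz, hrel⟩ :=
    hPoint he 𝔓 h𝔓 F hF G hq hG β hβ hP2
  have hx0 : x ≠ 0 := by
    intro h0
    rw [h0] at hGz
    exact hP3 E (algebraMap k E) z hz hVan hFz hGz
  choose g f δ hf hfI using fun i => hHg (𝔓 i) (h𝔓.homog i)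
  let F' : (J ⊕ Σ i : Fin s, Fin (g i)) → MvPolynomial (PV m) k :=
    Sum.elim F (fun v => rename (fun l => (⟨v.1, l⟩ : PV m)) (f v.1 v.2))
  let D' : (J ⊕ Σ i : Fin s, Fin (g i)) → Fin s → ℕ :=
    Sum.elim D (fun v => Pi.single v.1 (δ v.1 v.2))
  have hF' : ∀ j, MH (W1 m) (F' j) (D' j) := by
    intro j
    rcases j with j | v
    · exact hF j
    · exact EXY.mh_rename v.1 (hf v.1 v.2)
  have hmem : ∀ i b, f i b ∈ 𝔓 i := by
    intro i b
    rw [← hfI i]
    exact Ideal.subset_span ⟨b, rfl⟩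
  -- vanishing of the forms `F'` means vanishing of the `F` and of the ideals
  have hvan : ∀ {L : Type u} [Field L] (φ : k →+* L) (z : PV m → L),
      (∀ j, eval₂ φ z (F' j) = 0) → Van 𝔓 φ z := by
    intro L _ φ z h i
    apply EXY.van_of_span φ (𝔓 i) (f i) (hfI i)
    intro b
    have h1 := h (Sum.inr ⟨i, b⟩)
    simp only [F', Sum.elim_inr] at h1
    rw [eval₂_rename] at h1
    exact h1
  refine ⟨ptIdeal (algebraMap k E) x, inferInstance,
    fun f hf m => ptIdeal_homogeneous (algebraMap k E) x f hf m,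
    ringKrullDim_ptIdeal ht hx0 hrel, ?_⟩
  intro Ω _ _ ψ y hy hyP
  obtain ⟨z', c, hc, hz', hF'z', hGz'⟩ := lift_point (tri_W1 m) he F' hF' G hG hP2
    (fun κ _ φ z hz hF' hG' => hP3 κ φ z hz (hvan φ z hF') (fun j => hF' (Sum.inl j)) hG')
    (algebraMap k E) hz (by
      intro j
      rcases j with j | v
      · exact hFz j
      · simp only [F', Sum.elim_inr]
        rw [eval₂_rename]
        exact hVan v.1 _ (hmem v.1 v.2)) hGz ψ hy hyP
  exact ⟨z', c, hc, hz', hvan ψ z' hF'z', fun j => hF'z' (Sum.inl j), hGz'⟩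

end Pool.Agent.STB
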