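import Pool.Agent.STB.Defs

/-!
# Generic points of affine cones
-/

set_option autoImplicit false
set_option linter.style.haveILetI false

noncomputable section

namespace Pool.Agent.STB

open MvPolynomial Pool.Agent.LibDb3ab1

universe u

theorem gp_proof : Stmt_Gp.{u} := by
  intro k Ω _ _ _ _ m d 𝔓 _ hdim θ hθ
  classical
  obtain ⟨t, g, hg, hint⟩ := exists_integral_inj_algHom_of_fg k (MvPolynomial (Fin m) k ⧸ 𝔓)
  letI : Algebra (MvPolynomial (Fin t) k) (MvPolynomial (Fin m) k ⧸ 𝔓) := g.toRingHom.toAlgebra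
  haveI : Algebra.IsIntegral (MvPolynomial (Fin t) k) (MvPolynomial (Fin m) k ⧸ 𝔓) := ⟨hint⟩
  have hginj : Function.Injective
      (algebraMap (MvPolynomial (Fin t) k) (MvPolynomial (Fin m) k ⧸ 𝔓)) := hg
  have h1 := ringKrullDim_eq_of_integral hginj
  rw [MvPolynomial.ringKrullDim_of_isNoetherianRing, ringKrullDim_eq_zero_of_field, zero_add,
    Nat.card_eq_fintype_card, Fintype.card_fin, hdim] at h1
  have htd : t = d := by exact_mod_cast h1
  subst htd
  letI : Algebra (MvPolynomial (Fin t) k) Ω := (MvPolynomial.aeval θ : _ →ₐ[k] Ω).toRingHom.toAlgebra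
  have hθinj : Function.Injective (algebraMap (MvPolynomial (Fin t) k) Ω) := hθ
  haveI : FaithfulSMul (MvPolynomial (Fin t) k) (MvPolynomial (Fin m) k ⧸ 𝔓) :=
    (faithfulSMul_iff_algebraMap_injective _ _).mpr hginj
  haveI : FaithfulSMul (MvPolynomial (Fin t) k) Ω :=
    (faithfulSMul_iff_algebraMap_injective _ _).mpr hθinj
  let L : (MvPolynomial (Fin m) k ⧸ 𝔓) →ₐ[MvPolynomial (Fin t) k] Ω := IsAlgClosed.lift
  have hL : ∀ c : k, L (Ideal.Quotient.mk 𝔓 (C c)) = algebraMap k Ω c := by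
    intro c
    have h2 : (Ideal.Quotient.mk 𝔓 (C c)) =
        algebraMap (MvPolynomial (Fin t) k) (MvPolynomial (Fin m) k ⧸ 𝔓) (C c) := by
      have := g.commutes c
      exact this.symm
    rw [h2, L.commutes]
    exact MvPolynomial.aeval_C θ c
  have hLf : ∀ f : MvPolynomial (Fin m) k,
      aeval (fun i => L (Ideal.Quotient.mk 𝔓 (X i))) f = L (Ideal.Quotient.mk 𝔓 f) := by
    intro f
    have : ((aeval (fun i => L (Ideal.Quotient.mk 𝔓 (X i))) : MvPolynomial (Fin m) k →ₐ[k] Ω) :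
        MvPolynomial (Fin m) k →+* Ω) = (L : _ →+* Ω).comp (Ideal.Quotient.mk 𝔓) := by
      apply MvPolynomial.ringHom_ext
      · intro r
        simp only [RingHom.coe_coe, aeval_C, RingHom.comp_apply]
        exact (hL r).symm
      · intro i
        simp
    exact RingHom.congr_fun this f
  refine ⟨fun i => L (Ideal.Quotient.mk 𝔓 (X i)), ?_, ?_⟩
  · intro f hf
    rw [hLf, Ideal.Quotient.eq_zero_iff_mem.mpr hf, map_zero]
  · intro j
    obtain ⟨f, hf⟩ := Ideal.Quotient.mk_surjective (g (X j))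
    have h2 : θ j = aeval (fun i => L (Ideal.Quotient.mk 𝔓 (X i))) f := by
      rw [hLf, hf]
      have h3 : g (X j) = algebraMap (MvPolynomial (Fin t) k) (MvPolynomial (Fin m) k ⧸ 𝔓) (X j) :=
        rfl
      rw [h3, L.commutes]
      exact (MvPolynomial.aeval_X θ j).symm
    rw [h2, Algebra.adjoin_range_eq_range_aeval]
    exact ⟨f, rfl⟩

end Pool.Agent.STB
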