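import Pool.Agent.STB.Defs

/-!
# STB, module HG: homogeneous ideals have finitely many homogeneous generators
-/

set_option autoImplicit false

noncomputable section

namespace Pool.Agent.STB

open MvPolynomial

theorem hg_proof : Stmt_Hg := by
  classical
  intro k _ m I hI
  obtain ⟨s, hs⟩ := (inferInstance : IsNoetherianRing (MvPolynomial (Fin m) k)).noetherian I
  set T : Finset (MvPolynomial (Fin m) k) := s.biUnion (fun F =>
    (Finset.range (F.totalDegree + 1)).image (fun j => homogeneousComponent j F)) with hT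
  have hsub : ∀ F ∈ s, F ∈ I := fun F hF => hs ▸ Submodule.subset_span hF
  have hTh : ∀ x ∈ T, ∃ d : ℕ, x.IsHomogeneous d := by
    intro x hx
    rw [hT, Finset.mem_biUnion] at hx
    obtain ⟨F, -, hx⟩ := hx
    rw [Finset.mem_image] at hx
    obtain ⟨j, -, rfl⟩ := hx
    exact ⟨j, homogeneousComponent_isHomogeneous j F⟩
  have hTI : ∀ x ∈ T, x ∈ I := by
    intro x hx
    rw [hT, Finset.mem_biUnion] at hx
    obtain ⟨F, hF, hx⟩ := hx
    rw [Finset.mem_image] at hx
    obtain ⟨j, -, rfl⟩ := hx
    exact hI F (hsub F hF) j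
  choose d hd using hTh
  refine ⟨T.card, fun b => (T.equivFin.symm b : MvPolynomial (Fin m) k),
    fun b => d _ (T.equivFin.symm b).2, fun b => hd _ (T.equivFin.symm b).2, ?_⟩
  have hrange : Set.range (fun b => (T.equivFin.symm b : MvPolynomial (Fin m) k)) =
      (T : Set (MvPolynomial (Fin m) k)) := by
    ext x
    constructor
    · rintro ⟨b, rfl⟩
      exact (T.equivFin.symm b).2
    · intro hx
      exact ⟨T.equivFin ⟨x, hx⟩, by simp⟩
  rw [hrange]
  apply le_antisymm
  · rw [Ideal.span_le]
    intro x hx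
    exact hTI x hx
  · rw [← hs]
    change Ideal.span (s : Set (MvPolynomial (Fin m) k)) ≤ _
    rw [Ideal.span_le]
    intro F hF
    have hsum : F = ∑ j ∈ Finset.range (F.totalDegree + 1), homogeneousComponent j F :=
      (sum_homogeneousComponent F).symm
    rw [SetLike.mem_coe, hsum]
    refine Ideal.sum_mem _ fun j hj => Ideal.subset_span ?_
    rw [Finset.mem_coe, hT, Finset.mem_biUnion]
    exact ⟨F, hF, Finset.mem_image.mpr ⟨j, hj, rfl⟩⟩

end Pool.Agent.STB
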