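import Pool.Agent.STB.Defs

/-!
# HOM2: the valuation part of the homotopy argument
-/

set_option autoImplicit false

noncomputable section

namespace Pool.Agent.STB

open MvPolynomial Pool.Agent.LibDb3ab1

universe u

theorem hom2_proof : Stmt_Hom2 := by
  classical
  intro s n τ _ grp W e hT he E L _ _ φ₀ ε₀ htr₀ y₀ hrel₀ R S T D hSD hTD hy₀ ρ hbad
  -- replace `L` by its algebraic closure
  let α : L →+* AlgebraicClosure L := algebraMap L (AlgebraicClosure L)
  have hα : Function.Injective α := α.injective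
  let φ : E →+* AlgebraicClosure L := α.comp φ₀
  set ε : AlgebraicClosure L := α ε₀ with hεdef
  let y : τ ⊕ Fin (n + 1) → AlgebraicClosure L := fun v => α (y₀ v)
  have htr : ∀ P : Polynomial E, P ≠ 0 → Polynomial.eval₂ φ ε P ≠ 0 := by
    intro P hP h0
    apply htr₀ P hP
    apply hα
    rw [map_zero, Polynomial.hom_eval₂]
    exact h0
  have hε0 : ε ≠ 0 := by
    have := htr Polynomial.X Polynomial.X_ne_zero
    rwa [Polynomial.eval₂_X] at this
  have htr' : ∀ P : Polynomial E, P ≠ 0 → Polynomial.eval₂ φ ε⁻¹ P ≠ 0 := by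
    intro P hP
    let _ : Invertible (ε⁻¹) := invertibleOfNonzero (inv_ne_zero hε0)
    have h1 := Polynomial.eval₂_reverse_mul_pow φ ε⁻¹ P
    rw [← h1, invOf_eq_inv, inv_inv]
    apply mul_ne_zero
    · apply htr
      rwa [Ne, Polynomial.reverse_eq_zero]
    · exact pow_ne_zero _ (inv_ne_zero hε0)
  let A : Subring (AlgebraicClosure L) := (Polynomial.eval₂RingHom φ ε⁻¹).range
  have hηA : ε⁻¹ ∈ A := ⟨Polynomial.X, by simp⟩
  let I : Ideal A := Ideal.span {⟨ε⁻¹, hηA⟩}
  have hI : I ≠ ⊤ := by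
    intro htop
    rw [Ideal.eq_top_iff_one, Ideal.mem_span_singleton'] at htop
    obtain ⟨⟨a, g, hg⟩, ha⟩ := htop
    have h1 := congrArg Subtype.val ha
    simp only [Subring.coe_mul, Subring.coe_one] at h1
    rw [← hg] at h1
    apply htr' (g * Polynomial.X - 1)
    · intro h2
      have := congrArg (fun P => Polynomial.coeff P 0) h2
      simp at this
    · rw [Polynomial.eval₂_sub, Polynomial.eval₂_mul, Polynomial.eval₂_X, Polynomial.eval₂_one,
        sub_eq_zero]
      exact h1
  obtain ⟨V, hAV, hIV⟩ := Ideal.image_subset_nonunits_valuationSubring I hI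
  have hφV : ∀ c, φ c ∈ V := fun c => hAV ⟨Polynomial.C c, by simp⟩
  have hη : ε⁻¹ ∈ V.nonunits := hIV ⟨⟨ε⁻¹, hηA⟩, Ideal.mem_span_singleton_self _, rfl⟩
  have hmap : ∀ f : MvPolynomial (τ ⊕ Fin (n + 1)) E, eval₂ φ y f = α (eval₂ φ₀ y₀ f) := by
    intro f
    rw [hom_eval₂]
  have hy : ∀ r, eval₂ φ y (T r) + ε⁻¹ * eval₂ φ y (S r) = 0 := by
    intro r
    have h1 := congrArg α (hy₀ r)
    rw [map_add, map_mul, map_zero, ← hmap, ← hmap, ← hεdef] at h1
    have h3 : ε * (eval₂ φ y (T r) + ε⁻¹ * eval₂ φ y (S r)) = 0 := by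
      rw [mul_add, ← mul_assoc, mul_inv_cancel₀ hε0, one_mul, add_comm]
      exact h1
    exact (mul_eq_zero.mp h3).resolve_left hε0
  set η := ε⁻¹ with hηdef
  -- scaling
  set z0 : τ → AlgebraicClosure L := fun v => y (Sum.inl v) with hz0
  set x0 : Fin (n + 1) → AlgebraicClosure L := fun l => y (Sum.inr l) with hx0
  have hyy : y = Sum.elim z0 x0 := by
    funext v
    rcases v with v | l <;> rfl
  have hrel : Rel grp z0 := by
    intro i
    obtain ⟨v, hv, hv0⟩ := hrel₀ i
    refine ⟨v, hv, fun h => hv0 ?_⟩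
    apply hα
    rw [map_zero]
    exact h
  obtain ⟨μ, hμ0, hμV, hμ1⟩ := exists_scaling V hT hrel
  set z1 := act W μ z0 with hz1
  set x1 : Fin (n + 1) → AlgebraicClosure L := fun l => chr μ e * x0 l with hx1
  have heq : ∀ r, eval₂ φ (Sum.elim z1 x1) (T r) + η * eval₂ φ (Sum.elim z1 x1) (S r) = 0 := by
    intro r
    rw [hz1, hx1, ← act_WW, eval₂_act (hSD r), eval₂_act (hTD r), ← hyy]
    have := hy r
    linear_combination chr μ (D r) * this
  have hηV : η ∈ V := V.nonunits_subset hη
  let φV : E →+* V := φ.codRestrict V.toSubring hφV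
  let ηV : V := ⟨η, hηV⟩
  have hres : IsLocalRing.residue V ηV = 0 := by
    rw [IsLocalRing.residue_eq_zero_iff]
    rw [← V.coe_mem_nonunits_iff]
    exact hη
  let zV : τ → V := fun v => ⟨z1 v, hμV v⟩
  let P : Fin (n + 1) → MvPolynomial (τ ⊕ Fin (n + 1)) V := fun l =>
    MvPolynomial.map φV (T (ρ l)) + C ηV * MvPolynomial.map φV (S (ρ l))
  have hcomp : V.subtype.comp φV = φ := rfl
  have hx1V : ∀ l, x1 l ∈ V := by
    apply integral_of_bad V (W := W) (e := e) (fun v => hT.sum_pos v) he P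
      (D := fun l => D (ρ l)) (fun l => ((hTD _).map _).add (((hSD _).map _).C_mul _))
      ?_ zV x1 ?_
    · intro x hx
      apply hbad _ ((IsLocalRing.residue V).comp φV) x
      intro l
      have h1 := hx l
      simp only [P] at h1
      rw [eval₂_add, eval₂_mul, eval₂_C, hres, zero_mul, add_zero, eval₂_map] at h1
      exact h1
    · intro l
      simp only [P]
      rw [eval₂_add, eval₂_mul, eval₂_C, eval₂_map, eval₂_map, hcomp]
      exact heq (ρ l)
  let xV : Fin (n + 1) → V := fun l => ⟨x1 l, hx1V l⟩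
  have hev : ∀ r, eval₂ φV (Sum.elim zV xV) (T r) + ηV * eval₂ φV (Sum.elim zV xV) (S r) = 0 := by
    intro r
    apply V.subtype_injective
    rw [map_add, map_mul, map_zero, hom_eval₂, hom_eval₂, hcomp]
    have h1 : (fun i => V.subtype (Sum.elim zV xV i)) = Sum.elim z1 x1 := by
      funext v
      rcases v with v | l <;> rfl
    rw [h1]
    exact heq r
  refine ⟨IsLocalRing.ResidueField V, inferInstance, (IsLocalRing.residue V).comp φV,
    fun v => IsLocalRing.residue V (zV v), fun l => IsLocalRing.residue V (xV l), ?_, ?_, ?_⟩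
  · intro i
    obtain ⟨v, hv, hv1⟩ := hμ1 i
    refine ⟨v, hv, ?_⟩
    have h1 : zV v = 1 := Subtype.ext hv1
    change IsLocalRing.residue V (zV v) ≠ 0
    rw [h1, map_one]
    exact one_ne_zero
  · intro r
    have h1 := congrArg (IsLocalRing.residue V) (hev r)
    rw [map_add, map_mul, hres, zero_mul, add_zero, map_zero, hom_eval₂] at h1
    rw [← h1]
    congr 1
    funext v
    rcases v with v | l <;> rfl
  · intro f a hf h0
    have h1 : eval₂ φ z1 f = 0 := by
      rw [hz1, eval₂_act hf]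
      have h2 : eval₂ φ z0 f = α (eval₂ φ₀ (fun v => y₀ (Sum.inl v)) f) := by
        rw [hom_eval₂]
      rw [h2, h0, map_zero, mul_zero]
    have h2 : eval₂ φV zV f = 0 := by
      apply V.subtype_injective
      rw [map_zero, hom_eval₂, hcomp]
      exact h1
    have h3 := congrArg (IsLocalRing.residue V) h2
    rw [map_zero, hom_eval₂] at h3
    exact h3

end Pool.Agent.STB
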