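import Pool.Agent.STB.Defs

/-!
# IND: a matroid argument
-/

set_option autoImplicit false

noncomputable section

namespace Pool.Agent.STB

open MvPolynomial Pool.Agent.LibDb3ab1

universe u

theorem ind_proof : Stmt_Ind.{u} := by
  intro E Ω _ _ _ ι _ θ U hθ hU
  classical
  have h1 : (AlgebraicIndependent.matroid E Ω).Indep (Set.range θ) :=
    AlgebraicIndependent.matroid_indep_iff.2 hθ.to_subtype_range
  have h2 : Set.range θ ⊆ (AlgebraicIndependent.matroid E Ω).closure (Set.range U) := by
    rw [AlgebraicIndependent.matroid_closure_eq]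
    rintro _ ⟨j, rfl⟩
    exact hU j
  have h3 : (Set.range θ).encard ≤ (AlgebraicIndependent.matroid E Ω).eRk (Set.range U) := by
    rw [← h1.eRk_eq_encard]
    exact ((AlgebraicIndependent.matroid E Ω).eRk_mono h2).trans
      (Matroid.eRk_closure_eq _ _).le
  have hθc : ENat.card ι ≤ (Set.range θ).encard := hθ.injective.encard_range
  have hUc : (Set.range U).encard ≤ ENat.card ι := by
    rw [← Set.image_univ]
    refine (Set.encard_image_le _ _).trans ?_
    rw [Set.encard_univ]
  have h4 : (Set.range U).encard ≤ (AlgebraicIndependent.matroid E Ω).eRk (Set.range U) :=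
    hUc.trans (hθc.trans h3)
  have h5 : (AlgebraicIndependent.matroid E Ω).Indep (Set.range U) := by
    rw [Matroid.indep_iff_eRk_eq_encard_of_finite (Set.finite_range U)]
    exact le_antisymm (Matroid.eRk_le_encard _ _) h4
  have h6 : ENat.card ι ≤ (Set.range U).encard :=
    hθc.trans (h3.trans (Matroid.eRk_le_encard _ _))
  have hinj : Function.Injective U := by
    have h7 : Nat.card ι ≤ Nat.card (Set.range U) := by
      have h8 : ((Nat.card ι : ℕ) : ℕ∞) ≤ ((Nat.card (Set.range U) : ℕ) : ℕ∞) := by
        rw [← ENat.card_eq_coe_natCard, ← ENat.card_eq_coe_natCard]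
        exact h6
      exact_mod_cast h8
    have h9 := (Set.rangeFactorization_surjective (f := U)).bijective_of_nat_card_le h7
    exact fun a b hab => h9.1 (Subtype.ext hab)
  exact AlgebraicIndependent.of_subtype_range hinj (AlgebraicIndependent.matroid_indep_iff.1 h5)

end Pool.Agent.STB
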