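import Pool.Agent.STB.Defs

/-!
# STB, module NN: `r + 1` generic hyperplanes have no common point on a closed subscheme of
dimension `r`
-/

set_option autoImplicit false

noncomputable section

namespace Pool.Agent.STB

open MvPolynomial Pool.Agent.LibDb3ab1

universe u

theorem nn_proof (hDimge : Stmt_Dimge.{u}) : Stmt_Nn.{u} := by
  intro k κ _ _ _ m r P hPh hdim t ht x hx hz
  by_contra hx0
  have h1 := hDimge ht hx0 hz
  have hle : P ≤ ptIdeal (algebraMap k κ) x := by
    intro f hf
    rw [mem_ptIdeal_iff]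
    intro j
    exact hx _ (hPh f hf j)
  have h2 : ringKrullDim (MvPolynomial (Fin (m + 1)) k ⧸ ptIdeal (algebraMap k κ) x) ≤
      ringKrullDim (MvPolynomial (Fin (m + 1)) k ⧸ P) :=
    ringKrullDim_le_of_surjective (Ideal.Quotient.factor hle)
      (Ideal.Quotient.factor_surjective hle)
  rw [hdim] at h2
  have h3 : ((r + 1 + 1 : ℕ) : WithBot ℕ∞) ≤ ((r + 1 : ℕ) : WithBot ℕ∞) := h1.trans h2
  have h4 : r + 1 + 1 ≤ r + 1 := by exact_mod_cast h3
  omega

end Pool.Agent.STB
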