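import Pool.Agent.STB.Defs

/-!
# POINT: existence of a point of the incidence variety with prescribed hyperplanes
-/

set_option autoImplicit false
set_option linter.style.haveILetI false

noncomputable section

namespace Pool.Agent.STB

open MvPolynomial Pool.Agent.LibDb3ab1

universe u

namespace POINT

theorem mh_rename {R : Type*} [CommRing R] {s : ℕ} {m : Fin s → ℕ} (i : Fin s)
    {P : MvPolynomial (Fin (m i + 1)) R} {j : ℕ} (hP : P.IsHomogeneous j) :
    MH (W1 m) (rename (fun l => (⟨i, l⟩ : PV m)) P)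
      (fun i' => if i = i' then j else 0) := by
  classical
  intro i' u hu
  obtain ⟨v, hv, hv'⟩ := coeff_rename_ne_zero _ _ _ hu
  have h1 := hP hv'
  rw [← hv, Finsupp.weight_apply, Finsupp.sum_mapDomain_index (by simp)
    (by intros; simp [add_mul])]
  rw [Finsupp.weight_apply] at h1
  simp only [W1, Pi.one_apply, smul_eq_mul, mul_one] at h1 ⊢
  split_ifs with h
  · simpa using h1
  · simp

/-- The generic linear forms, as polynomials. -/
def LU {E : Type u} [Field E] {s n : ℕ} {m r : Fin s → ℕ} (t : (Σ i : Fin s, Fin (r i + 1)) → E)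
    (v : Σ i : Fin s, Fin (r i + 1)) : MvPolynomial (PV m ⊕ Fin (n + 1)) E :=
  ∑ l : Fin (m v.1 + 1), C (t v ^ (l : ℕ)) * X (Sum.inl ⟨v.1, l⟩)

theorem LU_wh {E : Type u} [Field E] {s n : ℕ} {m r : Fin s → ℕ} (e : Fin s → ℕ)
    (t : (Σ i : Fin s, Fin (r i + 1)) → E)
    (v : Σ i : Fin s, Fin (r i + 1)) (i : Fin s) :
    IsWeightedHomogeneous (WW (W1 m) e n i) (LU (n := n) (m := m) t v)
      (if v.1 = i then 1 else 0) := by
  apply IsWeightedHomogeneous.sum
  intro l _
  have h1 := (isWeightedHomogeneous_C (WW (W1 m) e n i) (t v ^ (l : ℕ))).mul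
    (isWeightedHomogeneous_X E (WW (W1 m) e n i) (Sum.inl (⟨v.1, l⟩ : PV m)))
  rw [zero_add] at h1
  exact h1

theorem aeval_LU {E Ω : Type u} [Field E] [Field Ω] [Algebra E Ω] {s n : ℕ} {m r : Fin s → ℕ}
    (t : (Σ i : Fin s, Fin (r i + 1)) → E) (z : PV m → Ω)
    (v : Σ i : Fin s, Fin (r i + 1)) :
    aeval (Sum.elim (fun v => C (z v)) X :
      PV m ⊕ Fin (n + 1) → MvPolynomial (Fin (n + 1)) Ω) (LU (n := n) (m := m) t v) =
      C (uu (fun v => algebraMap E Ω (t v)) z v) := by
  simp only [LU, uu, map_sum, map_mul, aeval_X, Sum.elim_inl]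
  apply Finset.sum_congr rfl
  intro l _
  congr 1
  rw [MvPolynomial.aeval_C, map_pow, map_pow]
  rfl

end POINT

open POINT in
theorem point_proof (hChart : Stmt_Chart.{u}) (hHom1 : Stmt_Hom1.{u}) (hHom2 : Stmt_Hom2.{u}) :
    Stmt_Point.{u} := by
  classical
  intro k _ s n d m r e he 𝔓 hP J F D hF G q hq hG β hβ hbad
  obtain ⟨E0, _, _, _, t0, ht0⟩ := exists_transcendence d k
  obtain ⟨E, _, _, _, t1, ht1⟩ := exists_transcendence
    (Fintype.card (Σ i : Fin s, Fin (r i + 1))) E0
  letI : Algebra k E := ((algebraMap E0 E).comp (algebraMap k E0)).toAlgebra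
  haveI : IsScalarTower k E0 E := IsScalarTower.of_algebraMap_eq (fun _ => rfl)
  let tt : (Σ i : Fin s, Fin (r i + 1)) → E := fun v => t1 (Fintype.equivFin _ v)
  have htt0 : AlgebraicIndependent E0 tt :=
    ht1.1.comp _ (Fintype.equivFin (Σ i : Fin s, Fin (r i + 1))).injective
  have htt : AlgebraicIndependent k tt :=
    htt0.restrictScalars (algebraMap k E0).injective
  obtain ⟨Ω, _, _, ζ, hVan, hu0, hind, hint⟩ := hChart 𝔓 hP htt
  let σ : Type := Σ i : Fin s, Fin (r i)
  let u : σ → Ω := fun v => uu (fun v => algebraMap E Ω (tt v)) ζ ⟨v.1, v.2.succ⟩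
  let Dv : σ → Fin s → ℕ := fun v => Sum.elim D (fun _ => e) (β v)
  -- the system of equations
  let S : σ ⊕ Fin (n + 1) → MvPolynomial (PV m ⊕ Fin (n + 1)) E := Sum.elim
    (fun v => LU tt ⟨v.1, v.2.succ⟩ ^ Dv v v.1 *
      ∏ i' ∈ Finset.univ.erase v.1, LU tt ⟨i', 0⟩ ^ Dv v i')
    (fun l => X (Sum.inr l) ^ q l)
  let T0 : J ⊕ Fin d → MvPolynomial (PV m ⊕ Fin (n + 1)) E0 := Sum.elim
    (fun j => rename Sum.inl (MvPolynomial.map (algebraMap k E0) (F j)))
    (fun i => ∑ l : Fin (n + 1), C (t0 i ^ (l : ℕ)) * X (Sum.inr l))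
  let T1 : σ ⊕ Fin (n + 1) → MvPolynomial (PV m ⊕ Fin (n + 1)) E0 := Sum.elim
    (fun v => T0 (β v)) (fun l => MvPolynomial.map (algebraMap k E0) (G l))
  let T : σ ⊕ Fin (n + 1) → MvPolynomial (PV m ⊕ Fin (n + 1)) E := fun r =>
    MvPolynomial.map (algebraMap E0 E) (T1 r)
  let DD : σ ⊕ Fin (n + 1) → Fin s → ℕ := Sum.elim Dv (fun l i => e i * q l)
  have hX : ∀ (i : Fin s) (v : PV m ⊕ Fin (n + 1)), IsWeightedHomogeneous (WW (W1 m) e n i)
      (X v : MvPolynomial (PV m ⊕ Fin (n + 1)) E) (WW (W1 m) e n i v) :=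
    fun i v => isWeightedHomogeneous_X _ _ _
  have hX0 : ∀ (i : Fin s) (v : PV m ⊕ Fin (n + 1)), IsWeightedHomogeneous (WW (W1 m) e n i)
      (X v : MvPolynomial (PV m ⊕ Fin (n + 1)) E0) (WW (W1 m) e n i v) :=
    fun i v => isWeightedHomogeneous_X _ _ _
  have hSD : ∀ r, MH (WW (W1 m) e n) (S r) (DD r) := by
    intro r i
    rcases r with v | l
    · have h1 := ((LU_wh (n := n) (m := m) e tt ⟨v.1, v.2.succ⟩ i).pow (Dv v v.1)).mul
        (IsWeightedHomogeneous.prod (Finset.univ.erase v.1)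
          (fun i' => LU (n := n) (m := m) tt ⟨i', 0⟩ ^ Dv v i')
          (fun i' => Dv v i' • (if i' = i then 1 else 0))
          (fun i' _ => (LU_wh (n := n) (m := m) e tt ⟨i', 0⟩ i).pow _))
      have h2 : Dv v v.1 • (if v.1 = i then 1 else 0) +
          ∑ i' ∈ Finset.univ.erase v.1, Dv v i' • (if i' = i then 1 else 0) = Dv v i := by
        simp only [smul_eq_mul, mul_ite, mul_one, mul_zero]
        rw [Finset.add_sum_erase Finset.univ (fun i' => if i' = i then Dv v i' else 0)
          (Finset.mem_univ v.1)]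
        simp
      simp only at h1
      rw [h2] at h1
      exact h1
    · have h1 := (hX i (Sum.inr l)).pow (q l)
      have h2 : q l • WW (W1 m) e n i (Sum.inr l) = DD (Sum.inr l) i := by
        simp only [WW, Sum.elim_inr, smul_eq_mul, DD]
        rw [mul_comm]
      rw [h2] at h1
      exact h1
  have hT0 : ∀ r, MH (WW (W1 m) e n) (T0 r) (Sum.elim D (fun _ => e) r) := by
    intro r
    rcases r with j | i'
    · exact ((hF j).map (algebraMap k E0)).rename_inl
    · intro i
      apply IsWeightedHomogeneous.sum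
      intro l _
      have h1 := (isWeightedHomogeneous_C (WW (W1 m) e n i) (t0 i' ^ (l : ℕ))).mul
        (hX0 i (Sum.inr l))
      rw [zero_add] at h1
      exact h1
  have hT1 : ∀ r, MH (WW (W1 m) e n) (T1 r) (DD r) := by
    intro r
    rcases r with v | l
    · exact hT0 (β v)
    · exact (hG l).map (algebraMap k E0)
  have hTD : ∀ r, MH (WW (W1 m) e n) (T r) (DD r) := fun r => (hT1 r).map (algebraMap E0 E)
  -- first half
  obtain ⟨L, _, φ, ε, y, htr, hy, hyv⟩ := hHom1 (E := E) (Ω := Ω) (σ := σ) (ρ := PV m) (n := n)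
    (u := u) hind (z := ζ) hint (by
      intro a
      apply Subalgebra.sum_mem
      intro l _
      apply Subalgebra.mul_mem
      · rw [← map_pow]
        exact Subalgebra.algebraMap_mem _ _
      · exact Algebra.subset_adjoin ⟨_, rfl⟩) S T (by
      intro a
      refine ⟨Dv a a.1, hβ a, ?_⟩
      simp only [S, Sum.elim_inl]
      rw [map_mul, map_pow, map_prod, aeval_LU]
      have h3 : ∏ i' ∈ Finset.univ.erase a.1, aeval (Sum.elim (fun v => C (ζ v)) X :
          PV m ⊕ Fin (n + 1) → MvPolynomial (Fin (n + 1)) Ω)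
          (LU (n := n) (m := m) tt ⟨i', 0⟩ ^ Dv a i') = 1 := by
        apply Finset.prod_eq_one
        intro i' _
        rw [map_pow, aeval_LU, hu0, map_one, one_pow]
      rw [h3, mul_one]) (by
      intro l
      refine ⟨q l, hq l, ?_⟩
      simp only [S, Sum.elim_inr]
      rw [map_pow, aeval_X]
      rfl)
  -- second half
  have hrel : Rel Sigma.fst (fun v => y (Sum.inl v) : PV m → L) := by
    intro i
    by_contra hcon
    have h0 : ∀ l : Fin (m i + 1), y (Sum.inl ⟨i, l⟩) = 0 := by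
      intro l
      by_contra hne
      exact hcon ⟨⟨i, l⟩, rfl, hne⟩
    have h1 := hyv (∑ l : Fin (m i + 1), C (tt ⟨i, 0⟩ ^ (l : ℕ)) * X ⟨i, l⟩ - 1) (by
      rw [map_sub, map_one, map_sum, ← hu0 i, sub_eq_zero]
      apply Finset.sum_congr rfl
      intro l _
      rw [map_mul, aeval_X, aeval_C, map_pow])
    rw [eval₂_sub, eval₂_one, ← coe_eval₂Hom, map_sum] at h1
    rw [Finset.sum_eq_zero] at h1
    · simp at h1
    · intro l _
      rw [map_mul, coe_eval₂Hom, eval₂_X, h0, mul_zero]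
  obtain ⟨κ, _, φ', z, x, hz, hx, hf⟩ := hHom2 (tri_W1 m) he φ ε htr y hrel S T hSD hTD hy
    (fun l => Sum.inr l) (by
      intro κ _ φ x hx
      apply hbad κ (φ.comp (algebraMap k E)) x
      intro l
      have h1 := hx l
      simp only [T, T1, Sum.elim_inr] at h1
      rw [eval₂_map, eval₂_map] at h1
      exact h1)
  -- specialization
  let T2 : (σ ⊕ Fin (n + 1)) ⊕ (Σ i : Fin s, 𝔓 i) → MvPolynomial (PV m ⊕ Fin (n + 1)) E0 :=
    Sum.elim T1 (fun w => rename Sum.inl (rename (fun l => (⟨w.1, l⟩ : PV m))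
      (MvPolynomial.map (algebraMap k E0) w.2.1)))
  have hvan : ∀ i, ∀ f ∈ 𝔓 i, eval₂ (φ'.comp (algebraMap k E)) (fun l => z ⟨i, l⟩) f = 0 := by
    intro i f hfi
    rw [← sum_homogeneousComponent f, ← coe_eval₂Hom, map_sum]
    apply Finset.sum_eq_zero
    intro j _
    rw [coe_eval₂Hom]
    have h1 := hf (rename (fun l => (⟨i, l⟩ : PV m)) (MvPolynomial.map (algebraMap k E)
      (homogeneousComponent j f))) _ (mh_rename i
        ((homogeneousComponent_isHomogeneous j f).map (algebraMap k E))) (by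
      apply hyv
      rw [aeval_rename, aeval_def, eval₂_map]
      exact hVan i _ (hP.homog i f hfi j))
    rw [eval₂_rename, eval₂_map] at h1
    exact h1
  obtain ⟨z', x', hz', hx'⟩ := specialize_solution (grp := (Sigma.fst : PV m → Fin s))
    (φ'.comp (algebraMap E0 E)) (RingHom.id E0) T2 (z := z) (x := x) hz (by
      intro r
      rcases r with r | ⟨i, f⟩
      · have h1 := hx r
        simp only [T] at h1
        rw [eval₂_map] at h1
        exact h1
      · simp only [T2, Sum.elim_inr]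
        rw [eval₂_rename, eval₂_rename, eval₂_map]
        exact hvan i f.1 f.2)
  refine ⟨E0, inferInstance, inferInstance, inferInstance, t0, z', x', ht0, hz', ?_, ?_, ?_, ?_⟩
  · intro i f hfi
    have h1 := hx' (Sum.inr ⟨i, ⟨f, hfi⟩⟩)
    simp only [T2, Sum.elim_inr] at h1
    rw [eval₂_rename, eval₂_rename, eval₂_map] at h1
    exact h1
  · intro j
    have h1 := hx' (Sum.inl (Sum.inl (β.symm (Sum.inl j))))
    simp only [T2, T1, T0, Sum.elim_inl, Equiv.apply_symm_apply] at h1
    rw [eval₂_rename, eval₂_map] at h1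
    exact h1
  · intro l
    have h1 := hx' (Sum.inl (Sum.inr l))
    simp only [T2, T1, Sum.elim_inl, Sum.elim_inr] at h1
    rw [eval₂_map] at h1
    exact h1
  · intro i
    have h1 := hx' (Sum.inl (Sum.inl (β.symm (Sum.inr i))))
    simp only [T2, T1, T0, Sum.elim_inl, Sum.elim_inr, Equiv.apply_symm_apply] at h1
    rw [← coe_eval₂Hom, map_sum] at h1
    rw [← h1]
    apply Finset.sum_congr rfl
    intro l _
    simp

end Pool.Agent.STB
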