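import Pool.Agent.STB.TiltStep

/-!
# The points over the tilt of the approximating varieties
-/

set_option autoImplicit false
set_option linter.unusedSectionVars false
set_option linter.style.haveILetI false

noncomputable section

namespace Pool.Agent.STB

open MvPolynomial Pool.Agent.LibDb3ab1

universe u

section scaling

variable {k L : Type u} [Field k] [Field L]

/-- Scaling a zero of a homogeneous ideal. -/
theorem eval₂_smul_mem {n : ℕ} (P : Ideal (MvPolynomial (Fin n) k))
    (hP : ∀ F ∈ P, ∀ j, homogeneousComponent j F ∈ P) (φ : k →+* L) (z : Fin n → L) (c : L)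
    (h : ∀ f ∈ P, eval₂ φ z f = 0) (f : MvPolynomial (Fin n) k) (hf : f ∈ P) :
    eval₂ φ (fun l => c * z l) f = 0 := by
  classical
  rw [← sum_homogeneousComponent f, ← coe_eval₂Hom, map_sum]
  apply Finset.sum_eq_zero
  intro j _
  rw [coe_eval₂Hom]
  have h1 : (homogeneousComponent j f).IsHomogeneous j := homogeneousComponent_isHomogeneous j f
  have h2 : MH (fun (_ : Fin 1) (_ : Fin n) => 1) (homogeneousComponent j f) (fun _ => j) :=
    fun _ => h1
  have h3 := eval₂_act h2 φ (fun _ => c) z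
  have h4 : act (fun (_ : Fin 1) (_ : Fin n) => 1) (fun _ => c) z = fun l => c * z l := by
    funext l
    simp [act, chr]
  rw [h4, h _ (hP f hf j), mul_zero] at h3
  exact h3

theorem act_W1 {s : ℕ} {m : Fin s → ℕ} (μ : Fin s → L) (z : PV m → L) (v : PV m) :
    act (W1 m) μ z v = μ v.1 * z v := by
  classical
  simp only [act, chr, W1]
  congr 1
  rw [Finset.prod_eq_single v.1]
  · rw [if_pos rfl, pow_one]
  · intro b _ hb
    rw [if_neg (Ne.symm hb), pow_zero]
  · intro h
    exact absurd (Finset.mem_univ _) h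

theorem Van.act {s : ℕ} {m r : Fin s → ℕ}
    {𝔓 : ∀ i : Fin s, Ideal (MvPolynomial (Fin (m i + 1)) k)} (hG : Good 𝔓 r) {φ : k →+* L}
    {z : PV m → L} (h : Van 𝔓 φ z) (μ : Fin s → L) : Van 𝔓 φ (act (W1 m) μ z) := by
  intro i f hf
  have h1 : (fun l => LibDb3ab1.act (W1 m) μ z ⟨i, l⟩) = fun l => μ i * z ⟨i, l⟩ := by
    funext l
    rw [act_W1]
  rw [h1]
  exact eval₂_smul_mem (𝔓 i) (hG.homog i) φ _ _ (h i) f hf

end scaling

section points

variable {K : Type u} [Field K] {O : ValuationSubring K} {p : ℕ} [Fact p.Prime]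
  [Fact ¬IsUnit (p : O)] [IsAdicComplete (Ideal.span {(p : O)}) O]

/-- A normalised point over the tilt of the approximating varieties lies in the tubes. -/
theorem van_dvd (hTube : Stmt_Tube.{u}) (hp0 : (p : K) ≠ 0) {s : ℕ} {m g : Fin s → ℕ}
    (f : ∀ i : Fin s, Fin (g i) → MvPolynomial (Fin (m i + 1)) O) (δ : ∀ i, Fin (g i) → ℕ)
    (hf : ∀ i b, (f i b).IsHomogeneous (δ i b)) {M : ℕ}
    {𝔓 : ∀ i : Fin s, Ideal (MvPolynomial (Fin (m i + 1)) (FractionRing (PreTilt O p)))}
    (hin : ∀ i, TiltInside p O (𝔓 i) (tube O p (f i) (δ i) M))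
    {C' : Type u} [Field C'] [IsAlgClosed C'] (ι : K →+* C') (V : ValuationSubring C')
    (hV : ValuedExt O ι V) [Fact ¬IsUnit (p : V)] [IsAdicComplete (Ideal.span {(p : V)}) V]
    {Ω : Type u} [Field Ω] [Algebra (PreTilt V p) Ω] [IsFractionRing (PreTilt V p) Ω]
    {ψ : FractionRing (PreTilt O p) →+* Ω}
    (hψ : ψ.comp (algebraMap (PreTilt O p) (FractionRing (PreTilt O p))) =
      (algebraMap (PreTilt V p) Ω).comp (tmap hV.incl))
    (zT : PV m → PreTilt V p) (hz : Van 𝔓 ψ (fun t => algebraMap (PreTilt V p) Ω (zT t)))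
    (v : Fin s → PV m) (hv : ∀ i, (v i).1 = i) (hzv : ∀ i, zT (v i) = 1) (i : Fin s)
    (b : Fin (g i)) :
    (p : V) ^ M ∣ eval₂ hV.incl (fun t => PreTilt.untilt (zT t)) (rename (Sigma.mk i) (f i b)) := by
  classical
  obtain ⟨l₀, hl₀⟩ : ∃ l, v i = ⟨i, l⟩ := by
    have h := hv i
    revert h
    generalize v i = w
    intro h
    obtain ⟨i', l'⟩ := w
    have h' : i' = i := h
    subst h'
    exact ⟨l', rfl⟩
  have hinj : Function.Injective (algebraMap (PreTilt V p) Ω) := IsFractionRing.injective _ _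
  have h1 : zT ⟨i, l₀⟩ = 1 := by
    rw [← hl₀]
    exact hzv i
  obtain ⟨a, haU, ha⟩ := hin i C' ι V hV (fun l => zT ⟨i, l⟩) (by
    intro h0
    have := congrFun h0 l₀
    simp only [Pi.zero_apply] at this
    rw [h1] at this
    exact one_ne_zero this) (by
    intro F hF
    apply hinj
    rw [map_zero, hom_eval₂, ← hψ, ← eval₂_map]
    exact hz i _ hF)
  have h2 := (hTube O (p := p) hp0 (f i) (δ i) M (hf i)).2.2 C' ι V hV
    (fun l => PreTilt.untilt (zT ⟨i, l⟩)) l₀ (by
      change PreTilt.untilt (zT ⟨i, l₀⟩) = 1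
      rw [h1, map_one]) a haU ha b
  rw [eval₂_rename]
  exact h2

end points

end Pool.Agent.STB
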