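import Pool.Agent.STB.Defs

/-!
# VALI: integrality over any algebra containing `r + 1` generic linear forms
-/

set_option autoImplicit false

namespace Pool.Agent.STB

open MvPolynomial Pool.Agent.LibDb3ab1

namespace Vali

universe u

/-- scaling of the variables in a homogeneous form -/
theorem scale {k L : Type u} [Field k] [Field L] (φ : k →+* L) {n j : ℕ}
    {f : MvPolynomial (Fin n) k} (hf : f.IsHomogeneous j) (c : L) (z : Fin n → L) :
    eval₂ φ (fun l => z l * c) f = eval₂ φ z f * c ^ j := by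
  rw [eval₂_eq', eval₂_eq', Finset.sum_mul]
  apply Finset.sum_congr rfl
  intro d hd
  have h1 : ∏ i, (z i * c) ^ d i = (∏ i, z i ^ d i) * c ^ (∑ i, d i) := by
    rw [← Finset.prod_pow_eq_pow_sum, ← Finset.prod_mul_distrib]
    apply Finset.prod_congr rfl
    intro i _
    rw [mul_pow]
  have h2 : ∑ i, d i = j := by
    have h3 := hf (mem_support_iff.mp hd)
    rw [Finsupp.weight_apply, Finsupp.sum_fintype _ _ (by simp)] at h3
    simpa using h3
  rw [h1, h2, mul_assoc]

/-- homogeneous ideals vanish at rescaled points -/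
theorem van_scale {k L : Type u} [Field k] [Field L] (φ : k →+* L) {n : ℕ}
    (𝔓 : Ideal (MvPolynomial (Fin n) k)) (h𝔓 : ∀ F ∈ 𝔓, ∀ j, homogeneousComponent j F ∈ 𝔓)
    (z : Fin n → L) (hz : ∀ f ∈ 𝔓, eval₂ φ z f = 0) (c : L) :
    ∀ f ∈ 𝔓, eval₂ φ (fun l => z l * c) f = 0 := by
  intro f hf
  have h := sum_homogeneousComponent f
  rw [← h, ← coe_eval₂Hom, map_sum]
  apply Finset.sum_eq_zero
  intro j _
  rw [coe_eval₂Hom, scale φ (homogeneousComponent_isHomogeneous j f), hz _ (h𝔓 f hf j), zero_mul]

end Vali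

universe u

theorem vali_proof (hNn : Stmt_Nn.{u}) : Stmt_Vali.{u} := by
  intro k E Ω _ _ _ _ _ m r 𝔓 h𝔓 hdim t ht A z hz hA
  -- all coordinates lie in every valuation subring containing `A`
  have key : ∀ V : ValuationSubring Ω, (A : Set Ω) ⊆ V.toSubring → ∀ l, z l ∈ V := by
    intro V hV
    by_contra hcon
    push Not at hcon
    obtain ⟨l, hl⟩ := hcon
    obtain ⟨l₀, hl₀⟩ := Finite.exists_max (fun l => V.valuation (z l))
    have h1 : 1 < V.valuation (z l₀) := by
      refine lt_of_lt_of_le ?_ (hl₀ l)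
      rw [← not_le, V.valuation_le_one_iff]
      exact hl
    have hz0 : z l₀ ≠ 0 := by
      intro h0
      rw [h0, map_zero] at h1
      exact not_lt_of_ge zero_le h1
    set c : Ω := (z l₀)⁻¹ with hc
    have hcv : V.valuation c < 1 := by
      rw [hc, map_inv₀]
      exact inv_lt_one_of_one_lt₀ h1
    have hzc : ∀ l, z l * c ∈ V := by
      intro l
      rw [← V.valuation_le_one_iff, map_mul, hc, map_inv₀]
      rw [← div_eq_mul_inv]
      exact div_le_one_of_le₀ (hl₀ l) zero_le
    set z' : Fin (m + 1) → V := fun l => ⟨z l * c, hzc l⟩ with hz'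
    have hEV : ∀ e : E, algebraMap E Ω e ∈ V := fun e => hV (A.algebraMap_mem e)
    set ψ : E →+* V := (algebraMap E Ω).codRestrict V.toSubring hEV with hψ
    set ρ : V →+* IsLocalRing.ResidueField V := IsLocalRing.residue V with hρ
    let _ : Algebra k (IsLocalRing.ResidueField V) :=
      ((ρ.comp ψ).comp (algebraMap k E)).toAlgebra
    have halg : algebraMap k (IsLocalRing.ResidueField V) = (ρ.comp ψ).comp (algebraMap k E) := rfl
    let F : E →ₐ[k] IsLocalRing.ResidueField V := { (ρ.comp ψ) with commutes' := fun _ => rfl }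
    have hF : Function.Injective F := (ρ.comp ψ).injective
    have ht' : AlgebraicIndependent k (F ∘ t) := ht.map' hF
    have hval : ∀ f ∈ 𝔓, eval₂ (algebraMap k (IsLocalRing.ResidueField V))
        (fun l => ρ (z' l)) f = 0 := by
      intro f hf
      have h2 : eval₂ (ψ.comp (algebraMap k E)) z' f = 0 := by
        apply Subtype.val_injective
        have h3 := Vali.van_scale _ 𝔓 h𝔓 z hz c f hf
        have h4 := hom_eval₂ f (ψ.comp (algebraMap k E)) V.subtype z'
        exact h4.trans h3
      have h5 := hom_eval₂ f (ψ.comp (algebraMap k E)) ρ z'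
      rw [h2, map_zero] at h5
      exact h5.symm
    have hlin : ∀ a, ∑ l : Fin (m + 1), (F ∘ t) a ^ (l : ℕ) * ρ (z' l) = 0 := by
      intro a
      have h2 : ∑ l : Fin (m + 1), (F ∘ t) a ^ (l : ℕ) * ρ (z' l) =
          ρ (∑ l : Fin (m + 1), ψ (t a) ^ (l : ℕ) * z' l) := by
        rw [map_sum]
        apply Finset.sum_congr rfl
        intro l _
        rw [map_mul, map_pow]
        rfl
      rw [h2]
      have h3 : ((∑ l : Fin (m + 1), ψ (t a) ^ (l : ℕ) * z' l : V) : Ω) =
          (∑ l : Fin (m + 1), algebraMap E Ω (t a) ^ (l : ℕ) * z l) * c := by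
        rw [Finset.sum_mul]
        have h4 : ((∑ l : Fin (m + 1), ψ (t a) ^ (l : ℕ) * z' l : V) : Ω) =
            V.subtype (∑ l : Fin (m + 1), ψ (t a) ^ (l : ℕ) * z' l) := rfl
        rw [h4, map_sum]
        apply Finset.sum_congr rfl
        intro l _
        rw [map_mul, map_pow, mul_assoc]
        rfl
      have h5 : V.valuation ((∑ l : Fin (m + 1), ψ (t a) ^ (l : ℕ) * z' l : V) : Ω) < 1 := by
        rw [h3, map_mul]
        have h6 : V.valuation (∑ l : Fin (m + 1), algebraMap E Ω (t a) ^ (l : ℕ) * z l) ≤ 1 := by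
          rw [V.valuation_le_one_iff]
          exact hV (hA a)
        calc _ ≤ 1 * V.valuation c := by gcongr
          _ < 1 := by rw [one_mul]; exact hcv
      rw [← V.valuation_lt_one_iff] at h5
      exact Ideal.Quotient.eq_zero_iff_mem.mpr h5
    have hx0 := hNn 𝔓 h𝔓 hdim ht' hval hlin
    have h7 := congrFun hx0 l₀
    have h8 : z' l₀ = 1 := by
      apply Subtype.ext
      show z l₀ * c = 1
      rw [hc]
      exact mul_inv_cancel₀ hz0
    have h9 : ρ (z' l₀) = 0 := h7
    rw [h8, map_one] at h9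
    exact one_ne_zero h9
  intro l
  have h1 : z l ∈ (⨅ V : {V : ValuationSubring Ω // (A : Set Ω) ⊆ V.toSubring},
      V.1.toSubring) := by
    rw [Subring.mem_iInf]
    intro V
    exact key V.1 V.2 l
  rw [iInf_valuationSubring_superset] at h1
  have h2 : IsIntegral (Subring.closure (A : Set Ω)) (z l) := h1
  have hle : Subring.closure (A : Set Ω) ≤ A.toSubring := Subring.closure_le.mpr (fun _ h => h)
  exact h2.map_of_comp_eq (Subring.inclusion hle) (RingHom.id Ω) rfl

end Pool.Agent.STB
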